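import Pool.Agent.H1.FurD

set_option autoImplicit false

namespace Pool.Agent.Results.MP_400a6b_co.NonnegDiagonal

open FurDiag

/-- Every algebraic power series over the rationals with nonnegative coefficients is the diagonal of
a bivariate rational power series all of whose coefficients are nonnegative. -/
theorem result : ∀ F : PowerSeries ℚ, IsAlg F → (∀ n : ℕ, 0 ≤ PowerSeries.coeff n F) →
    ∃ R : MvPowerSeries (Fin 2) ℚ, IsRat R ∧ (∀ e : Fin 2 →₀ ℕ, 0 ≤ MvPowerSeries.coeff e R) ∧
      diag R = F := by
  intro F hF hpos
  exact main F hF hpos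

end Pool.Agent.Results.MP_400a6b_co.NonnegDiagonal
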